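import Pool.Agent.N242.HB.Stm

/-!
# Project HB (helper242): AWY, zeros of `g` away from the balls through `p`
-/

set_option autoImplicit false

open Metric Set Filter Topology

namespace Pool.Agent.N865.HB

open Pool.Agent.N242.HB

universe u

theorem t_AWY (h1 : S_ACT.{u}) (h2 : S_CON.{u}) (h3 : S_GRD.{u}) : S_AWY.{u} := by
  intro H _ _ _ B hinf hPF p ρ hρ hgp
  obtain ⟨a1, a2, a3, a4, a5, a6⟩ := h1 H B hPF
  obtain ⟨c1, -, -⟩ := h2 H B hPF
  set V1 : Submodule ℝ H := Submodule.span ℝ ((fun b : H × ℝ => p - b.1) '' {b | Act B p b}) with hV1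
  have hfin : FiniteDimensional ℝ V1 := FiniteDimensional.span_of_finite ℝ ((a5 p).image _)
  have key : ∀ z : H, z - p ∈ V1ᗮ → z ≠ p → ∀ b, Act B p b → b.2 < ‖z - b.1‖ := by
    intro z hz hzp b hb
    have hbpos : 0 < b.2 := hPF.pos b hb.1
    have hval : val b p = 0 := by rw [(a2 p b hb).1, hgp]
    have hval' : b.2 ^ 2 = ‖p - b.1‖ ^ 2 := by
      have : b.2 ^ 2 - ‖p - b.1‖ ^ 2 = 0 := hval
      linarith
    have horth : inner ℝ (p - b.1) (z - p) = 0 := by
      rw [Submodule.mem_orthogonal] at hz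
      exact hz _ (Submodule.subset_span ⟨b, hb, rfl⟩)
    have hsq : ‖z - b.1‖ ^ 2 = ‖p - b.1‖ ^ 2 + ‖z - p‖ ^ 2 := by
      have e : z - b.1 = (p - b.1) + (z - p) := by abel
      rw [e, @norm_add_sq_real, horth]
      ring
    have hpos : 0 < ‖z - p‖ := norm_pos_iff.2 (sub_ne_zero.2 hzp)
    have : b.2 ^ 2 < ‖z - b.1‖ ^ 2 := by
      rw [hsq, ← hval']
      have := pow_pos hpos 2
      linarith
    exact lt_of_pow_lt_pow_left₀ 2 (norm_nonneg _) this
  have hw : ∃ w : H, w ∈ V1ᗮ ∧ ‖w‖ = 1 := by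
    have hne : V1ᗮ ≠ ⊥ := by
      intro h
      rw [Submodule.orthogonal_eq_bot_iff] at h
      apply hinf
      rw [h] at hfin
      exact Module.finite_def.2 (Module.Finite.iff_fg.1 hfin)
    obtain ⟨v, hv, hv0⟩ := Submodule.exists_mem_ne_zero_of_ne_bot hne
    refine ⟨‖v‖⁻¹ • v, Submodule.smul_mem _ _ hv, ?_⟩
    rw [norm_smul, norm_inv, norm_norm, inv_mul_cancel₀ (norm_ne_zero_iff.2 hv0)]
  obtain ⟨w, hwV, hw1⟩ := hw
  have hcont : ∃ η > 0, ∀ y, ‖y - p‖ < η → g B y < ρ ^ 2 / 16 := by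
    have h4 : ∀ᶠ y in 𝓝 p, g B y < ρ ^ 2 / 16 := by
      have := c1.continuousAt (x := p)
      refine this.eventually_lt_const ?_
      rw [hgp]
      positivity
    obtain ⟨η, hη, hη'⟩ := Metric.eventually_nhds_iff.1 h4
    exact ⟨η, hη, fun y hy => hη' (by rwa [dist_eq_norm])⟩
  obtain ⟨η, hη, hη'⟩ := hcont
  set τ : ℝ := min (ρ / 4) (η / 2) with hτ
  have hτ0 : 0 < τ := lt_min (by positivity) (by positivity)
  have hτ1 : τ ≤ ρ / 4 := min_le_left _ _
  have hτ2 : τ ≤ η / 2 := min_le_right _ _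
  have hnτ : ‖τ • w‖ = τ := by rw [norm_smul, hw1, mul_one, Real.norm_of_nonneg hτ0.le]
  have hy0 : ‖(p + τ • w) - p‖ = τ := by rw [add_sub_cancel_left, hnτ]
  have hgy : g B (p + τ • w) < ρ ^ 2 / 16 := hη' _ (by rw [hy0]; linarith)
  rcases (a3 (p + τ • w)).eq_or_lt with h0 | hpos
  · refine ⟨p + τ • w, h0.symm, by rw [hy0]; linarith, key _ ?_ ?_⟩
    · rw [add_sub_cancel_left]
      exact Submodule.smul_mem _ _ hwV
    · intro h
      have : ‖(p + τ • w) - p‖ = 0 := by rw [h, sub_self, norm_zero]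
      rw [hy0] at this
      linarith
  · obtain ⟨z, hz1, -, hz2, hz3⟩ := h3 H B hinf hPF (p + τ • w) (V1 ⊔ Submodule.span ℝ {w})
      (Submodule.finiteDimensional_sup _ _) hpos
    have hzV1 : z - (p + τ • w) ∈ V1ᗮ := Submodule.orthogonal_le le_sup_left hz3
    have hzw : inner ℝ w (z - (p + τ • w)) = 0 := by
      rw [Submodule.mem_orthogonal] at hz3
      exact hz3 w (Submodule.mem_sup_right (Submodule.mem_span_singleton_self w))
    have e : z - p = τ • w + (z - (p + τ • w)) := by abel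
    have hn : ‖z - (p + τ • w)‖ < ρ / 4 := by
      have : ‖z - (p + τ • w)‖ ^ 2 < (ρ / 4) ^ 2 := by
        rw [hz2]
        calc g B (p + τ • w) < ρ ^ 2 / 16 := hgy
          _ = (ρ / 4) ^ 2 := by ring
      exact lt_of_pow_lt_pow_left₀ 2 (by positivity) this
    refine ⟨z, hz1, ?_, key z ?_ ?_⟩
    · calc ‖z - p‖ = ‖τ • w + (z - (p + τ • w))‖ := by rw [e]
        _ ≤ ‖τ • w‖ + ‖z - (p + τ • w)‖ := norm_add_le _ _
        _ < ρ := by rw [hnτ]; linarith
    · rw [e]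
      exact add_mem (Submodule.smul_mem _ _ hwV) hzV1
    · intro h
      have h5 : inner ℝ w (z - p) = (0 : ℝ) := by rw [h, sub_self, inner_zero_right]
      rw [e, inner_add_right, hzw, inner_smul_right, real_inner_self_eq_norm_sq, hw1] at h5
      simp at h5
      linarith

end Pool.Agent.N865.HB
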